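import Pool.Agent.H458.PD.Uni
import Pool.Agent.H458.BM.Mcp
import Pool.Agent.H458.BM.Two

/-!
# Finite descent on all projective varieties with morphisms to hyperelliptic curves

Let `F` be ANY number field and `g ≥ 1`. We consider ALL polynomials
`f = x ^ (2 g + 1) + a_(2 g - 1) x ^ (2 g - 1) + ... + a_0` with coefficients in the ring of integers of `F`,
ordered by the height: `|σ a_i| ≤ B ^ (2 g + 1 - i)` for all embeddings `σ : F → ℂ`. Let `C_f` be the curve
`y ^ 2 = f(x)` of genus `g`, with the point `∞` at infinity (for `g = 1` these are all the elliptic curves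
over `F`).

For `f` and a finite set `Q` of primes of `F` let `C(f, Q)` be the class of all the finite Galois extensions
`M / F` of 2-power degree in which all the primes over `2` and all `v ∈ Q` split completely and in which only
primes are ramified modulo which `f` is irreducible (no condition at the infinite places).

Theorem. Let `N / F` be any finite Galois extension of 2-power degree in which the primes over `2` split
completely and `T` a finite set of primes of `F`. There are a finite set `Q` of primes, disjoint from `T` and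
prime to `2`, and a set `S` of polynomials of positive lower density (for large `B` it contains at least `c`
times the number of all `f` of height at most `B`, `c > 0`), such that all `f ∈ S` are irreducible modulo the
primes over `2` and modulo all `v ∈ T`, `F` and `N` belong to the class `C(f, Q)` for all `f ∈ S`, and the
following holds for ALL finite families `f_1, ..., f_r ∈ S` and ALL the fields `M` which belong to the classes
`C(f_1, Q), ..., C(f_r, Q)`, for example for `M = F` and `M = N`.

Let `X` be ANY projective variety over `M` with ANY morphism to the product `C_(f_1) × ... × C_(f_r)`. If for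
some prime `w` of `M` over `2` there is no point of `X` over the completion of `M` at `w` above the point
`(∞, ..., ∞)`, then finite descent explains that `X` has no point over `M`: there is an `n ≥ 1` such that no
adelic point of `X` lifts to an adelic point of the pull-back to `X` of a product of `2 ^ n`-coverings of
`C_(f_1), ..., C_(f_r)`. The level `n` is explicit: it is sufficient that there is no point of `X` over the
completion at `w` above a point `(z_1, ..., z_r)` all whose components are `∞` or of the form `(x, y)` with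
`|x| ≥ |2| ^ (- 2 n)`.

If `X` is a smooth curve and `J_X` its Jacobian, then every `2 ^ n`-covering of `X` (the pull-back of a
`2 ^ n`-covering of `Pic ^ 1_X`) has a morphism over `X` to the pull-back of a product of `2 ^ n`-coverings of
the curves `C_(f_i)` (the push-forward with the homomorphism from `J_X` to the product of the Jacobians), so
that the `2 ^ n`-Selmer set of `X` is empty. (This remark is standard and is not proved here.) For `F = M = ℚ`
and `r = 1`: for a positive proportion of all the curves `C : y ^ 2 = f(x)` over `ℚ` of every genus `g ≥ 1` the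
assertion of Q1 holds for ALL curves `X` over `ℚ` with a morphism to `C` for which there is no point over the
2-adic numbers above `∞`, for example for `z ^ 2 = h(x)`, `y ^ 2 = f(x)` for all polynomials `h` whose leading
coefficient is not a square in the 2-adic numbers. For `r = 2` the points of `X` above `∞` of one of the two
morphisms can be 2-adic if they are not above `∞` for both.

What is new. The theorem of Scharaschkin and Skorobogatov requires finite Tate-Shafarevich groups. helper438's
MP_d37f77_nt.ProductsOfCubicTwists treats closed subvarieties of products of the elliptic curves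
`y ^ 2 + D y = x ^ 3` over `ℚ` by 3-coverings. Here the curves are a positive proportion of ALL hyperelliptic
curves of every genus with a rational Weierstrass point (and of all elliptic curves), over every number field
and over infinitely many fields `M` at the same time, and the descent is by 2-coverings. The adelic points of
`C` which lift to `2 ^ n`-coverings are near infinity at `2`, with an explicit bound: see our
MP_308fa9_nt.SurvivingAdelicPoints. The passage to `X` is by the compactness of the set of the points over the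
completion.
-/

set_option autoImplicit false
set_option linter.all false

namespace Pool.Agent.Results.MP_d37f77_nt.CoversOfHyperellipticCurves

open Polynomial Filter IsDedekindDomain NumberField
open Pool.Agent.N874.Jac (J ShaTwoTrivialReal)
open Pool.Agent.H458.BM (Point AdelicPoint Survives ClassesArePowers NearBy MFamily)
open scoped Classical

section defs

variable {F : Type} [Field F] [NumberField F]

/-- `f` is a monic polynomial of degree `2 g + 1` with integral coefficients, without term of degree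
`2 g`. -/
structure IsOdd (g : ℕ) (f : (𝓞 F)[X]) : Prop where
  monic : f.Monic
  degree : f.natDegree = 2 * g + 1
  trace : f.coeff (2 * g) = 0

variable (F) in
/-- The polynomials `f` of height at most `B`: all conjugates of the coefficient of degree `j` are at most
`B ^ (2 g + 1 - j)` in absolute value. -/
def Polys (g B : ℕ) : Set (𝓞 F)[X] :=
  {f | IsOdd g f ∧ ∀ j ≤ 2 * g, ∀ σ : F →+* ℂ, ‖σ (f.coeff j : F)‖ ≤ (B : ℝ) ^ (2 * g + 1 - j)}

/-- `f` is irreducible modulo `v`. -/
def IrreducibleMod (f : (𝓞 F)[X]) (v : HeightOneSpectrum (𝓞 F)) : Prop :=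
  Irreducible (f.map (Ideal.Quotient.mk v.asIdeal))

/-- `M / F` is unramified at `v`. -/
def Unramified (v : HeightOneSpectrum (𝓞 F)) (M : Type) [Field M] [NumberField M]
    [Algebra F M] : Prop :=
  ∀ w : HeightOneSpectrum (𝓞 M), v.asIdeal.map (algebraMap (𝓞 F) (𝓞 M)) ≤ w.asIdeal →
    ¬ v.asIdeal.map (algebraMap (𝓞 F) (𝓞 M)) ≤ w.asIdeal ^ 2

/-- `v` splits completely in `M`: it is unramified and all integers of `M` are congruent to integers of
`F` modulo every prime over `v`. -/
def SplitsCompletely (v : HeightOneSpectrum (𝓞 F)) (M : Type) [Field M] [NumberField M]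
    [Algebra F M] : Prop :=
  Unramified v M ∧
  ∀ w : HeightOneSpectrum (𝓞 M), v.asIdeal.map (algebraMap (𝓞 F) (𝓞 M)) ≤ w.asIdeal →
    ∀ y : 𝓞 M, ∃ c : 𝓞 F, y - algebraMap (𝓞 F) (𝓞 M) c ∈ w.asIdeal

/-- `M / F` is a Galois extension of 2-power degree in which the primes over `2` split completely: it is
unramified at these primes, and `M` has an embedding over `F` in the completion of `F` at every prime over
`2`. -/
structure TwoSplit (F M : Type) [Field F] [NumberField F] [Field M] [NumberField M] [Algebra F M] :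
    Prop where
  galois : IsGalois F M
  degree : ∃ n : ℕ, Module.finrank F M = 2 ^ n
  two : ∀ v : HeightOneSpectrum (𝓞 F), (2 : 𝓞 F) ∈ v.asIdeal →
    Nonempty (M →ₐ[F] v.adicCompletion F)
  unramified : ∀ v : HeightOneSpectrum (𝓞 F), (2 : 𝓞 F) ∈ v.asIdeal → Unramified v M

/-- `M` belongs to the class `C(f, Q)`. -/
structure InClass (Q : Finset (HeightOneSpectrum (𝓞 F))) (f : (𝓞 F)[X]) (M : Type) [Field M]
    [NumberField M] [Algebra F M] : Prop where
  twoSplit : TwoSplit F M
  split : ∀ v ∈ Q, SplitsCompletely v M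
  ramified : ∀ v : HeightOneSpectrum (𝓞 F), Unramified v M ∨ IrreducibleMod f v

/-- The polynomial `f` over the extension `M` of `F`. -/
noncomputable def polyOver (M : Type) [Field M] [Algebra F M] (f : (𝓞 F)[X]) : M[X] :=
  (f.map (algebraMap (𝓞 F) F)).map (algebraMap F M)

/-- The point `z` of the curve over the completion of `M` at `w` is the point at infinity or an affine point
`(x, y)` with `|x| ≥ |2| ^ (- 2 n)`. -/
def NearInfinity {M : Type} [Field M] [NumberField M] {P : M[X]} {w : HeightOneSpectrum (𝓞 M)} (n : ℕ)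
    (z : Point P (w.adicCompletion M)) : Prop := NearBy Valued.v n z

/-- There is no point of `X` over the completion of `M` at `w` above the point `(∞, ..., ∞)`. -/
def NoPointAtInfinity {M : Type} [Field M] [NumberField M] {g m r : ℕ} (X : MFamily M g m r)
    (P : Fin r → M[X]) (w : HeightOneSpectrum (𝓞 M)) : Prop :=
  ¬ X.Lies (E := w.adicCompletion M) fun i => (none : Point (P i) (w.adicCompletion M))

/-- There is no point of `X` over the completion of `M` at `w` above a point all whose components are near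
infinity of level `n`. -/
def NoPointNearInfinity {M : Type} [Field M] [NumberField M] {g m r : ℕ} (X : MFamily M g m r)
    (P : Fin r → M[X]) (w : HeightOneSpectrum (𝓞 M)) (n : ℕ) : Prop :=
  ∀ z : ∀ i, Point (P i) (w.adicCompletion M), X.Lies z → ¬ ∀ i, NearInfinity n (z i)

/-- Finite descent by coverings of level `2 ^ n` on the varieties with morphisms to the curves
`y ^ 2 = P_i(x)`. -/
structure Descent (g : ℕ) (M : Type) [Field M] [NumberField M] {r : ℕ} (P : Fin r → M[X]) : Prop where
  rational : ∀ (m : ℕ) (X : MFamily M g m r) (w : HeightOneSpectrum (𝓞 M)), NoPointAtInfinity X P w →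
    ∀ z : ∀ i, Point (P i) M, ¬ X.Lies z
  selmer : ∀ (m : ℕ) (X : MFamily M g m r) (w : HeightOneSpectrum (𝓞 M)), (2 : 𝓞 M) ∈ w.asIdeal →
    NoPointAtInfinity X P w → ∃ n : ℕ, 1 ≤ n ∧ X.EmptySelmerSet P (𝓞 M) (2 ^ n)
  level : ∀ (m : ℕ) (X : MFamily M g m r) (w : HeightOneSpectrum (𝓞 M)) (n : ℕ), (2 : 𝓞 M) ∈ w.asIdeal →
    1 ≤ n → NoPointNearInfinity X P w n → X.EmptySelmerSet P (𝓞 M) (2 ^ n)

/-- The properties of the polynomials of the set `S`. -/
structure Good (Q T : Finset (HeightOneSpectrum (𝓞 F))) (N : Type) [Field N] [NumberField N]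
    [Algebra F N] (f : (𝓞 F)[X]) : Prop where
  irreducible : Irreducible (f.map (algebraMap (𝓞 F) F))
  two : ∀ v : HeightOneSpectrum (𝓞 F), (2 : 𝓞 F) ∈ v.asIdeal → IrreducibleMod f v
  mod : ∀ v ∈ T, IrreducibleMod f v
  base : InClass Q f F
  inClass : InClass Q f N

/-- The theorem on descent for all finite families of polynomials in the set `S`. -/
def DescentFor (g : ℕ) (Q : Finset (HeightOneSpectrum (𝓞 F))) (S : Set (𝓞 F)[X]) : Prop :=
  ∀ (r : ℕ) (f : Fin r → (𝓞 F)[X]), (∀ i, f i ∈ S) →
    ∀ (M : Type) [Field M] [NumberField M] [Algebra F M], (∀ i, InClass Q (f i) M) →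
      Descent g M fun i => polyOver M (f i)

end defs

section pf

variable {F : Type} [Field F] [NumberField F]

theorem spl_from {M : Type} [Field M] [NumberField M] [Algebra F M] {v : HeightOneSpectrum (𝓞 F)}
    (hv : SplitsCompletely v M) : Pool.Agent.N874.TF.Spl v M := by
  refine ⟨Pool.Agent.N874.TF.unr_of hv.1, fun w hw y => ?_⟩
  obtain ⟨y, rfl⟩ := Ideal.Quotient.mk_surjective y
  obtain ⟨c, hc⟩ := hv.2 w (Ideal.map_le_iff_le_comap.2 hw) y
  exact ⟨c, (Ideal.Quotient.eq.2 hc).symm⟩

theorem selmer_of {g : ℕ} {Q : Finset (HeightOneSpectrum (𝓞 F))} {f : (𝓞 F)[X]} (hm : f.Monic)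
    (hd : f.natDegree = 2 * g + 1) (h2 : Irreducible (Pool.Agent.N783.PF.fF f))
    (a4 : Pool.Agent.H458.RC.Uni {𝔭 | ∃ v ∈ Q, 𝔭 = v.asIdeal} f f)
    (M : Type) [Field M] [NumberField M] [Algebra F M] (hM : InClass Q f M) :
    Pool.Agent.N874.Jac.UniquelyTwoDivisible (polyOver M f) ∧ ShaTwoTrivialReal (polyOver M f) (𝓞 M) := by
  haveI := hM.twoSplit.galois
  obtain ⟨n, hn⟩ := hM.twoSplit.degree
  have hsel := a4 M (fun v hv => by
      obtain ⟨σ⟩ := hM.twoSplit.two v hv
      exact ⟨σ, fun y => σ.commutes y⟩) n hn (by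
      rintro v ⟨v', hv', h⟩
      rw [HeightOneSpectrum.ext h]
      exact spl_from (hM.split v' hv')) (by
      intro v hv
      rcases hM.ramified v with h | h
      · exact absurd (Pool.Agent.N874.TF.unr_of h) hv
      · exact h)
  exact Pool.Agent.N874.TF.genuineF hn hm (by rw [hd]; exact odd_two_mul_add_one g) h2 hsel

theorem pid_of {g : ℕ} (hg : 1 ≤ g) {Q : Finset (HeightOneSpectrum (𝓞 F))} {f : (𝓞 F)[X]}
    (hm : f.Monic) (hd : f.natDegree = 2 * g + 1) (h2 : Irreducible (Pool.Agent.N783.PF.fF f))
    (a4 : Pool.Agent.H458.RC.Uni {𝔭 | ∃ v ∈ Q, 𝔭 = v.asIdeal} f f)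
    {v : HeightOneSpectrum (𝓞 F)} (hv : (2 : 𝓞 F) ∈ v.asIdeal) (hR : Pool.Agent.H458.PD.RegAt v f)
    (M : Type) [Field M] [NumberField M] [Algebra F M] (hM : InClass Q f M) :
    IsPrincipalIdealRing (Pool.Agent.Y160.SE.CR 2 (polyOver M f)) := by
  obtain ⟨σ⟩ := hM.twoSplit.two v hv
  have h3 := (Pool.Agent.H458.PD.glo_ring σ hv hR hm hd h2.separable (P := polyOver M f) rfl
    (selmer_of hm hd h2 a4 M hM).1).2.1
  have hid : (polyOver M f).map (algebraMap M M) = polyOver M f := Polynomial.map_id
  have h4 : IsPrincipalIdealRing (Pool.Agent.Y160.SE.CR 2 ((polyOver M f).map (algebraMap M M))) := h3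
  rwa [hid] at h4

/-- The data at a prime over two. -/
theorem at_two {Q : Finset (HeightOneSpectrum (𝓞 F))} {f : (𝓞 F)[X]} {M : Type} [Field M]
    [NumberField M] [Algebra F M] (hM : InClass Q f M) (w : HeightOneSpectrum (𝓞 M))
    (hw : (2 : 𝓞 M) ∈ w.asIdeal) : ∃ v : HeightOneSpectrum (𝓞 F), (2 : 𝓞 F) ∈ v.asIdeal ∧
      ∀ x : F, w.valuation M (algebraMap F M x) = v.valuation F x := by
  obtain ⟨v, hv⟩ := Pool.Agent.N874.TF.exists_bel F w
  have h2 : (2 : 𝓞 F) ∈ v.asIdeal := by
    rw [hv, map_ofNat]
    exact hw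
  exact ⟨v, h2, Pool.Agent.N874.TF.unr_of (hM.twoSplit.unramified v h2) w fun a ha => (hv a).1 ha⟩

theorem base_mem {Q : Finset (HeightOneSpectrum (𝓞 F))} {f : (𝓞 F)[X]} : InClass Q f F := by
  have hunr : ∀ v : HeightOneSpectrum (𝓞 F), Unramified v F := by
    intro v w h1 h2
    have h3 : v.asIdeal ≤ w.asIdeal := fun a ha => Ideal.map_le_iff_le_comap.1 h1 ha
    have h4 : v.asIdeal ≤ w.asIdeal ^ 2 := fun a ha => Ideal.map_le_iff_le_comap.1 h2 ha
    have h5 : v.asIdeal = w.asIdeal := v.isMaximal.eq_of_le w.isPrime.ne_top h3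
    rw [h5] at h4
    obtain ⟨π, h6, h7⟩ := Ideal.exists_mem_pow_notMem_pow_succ w.asIdeal w.ne_bot w.isPrime.ne_top 1
    rw [pow_one] at h6
    exact h7 (h4 h6)
  refine ⟨⟨inferInstance, ⟨0, by simp⟩, fun v _ => ⟨Algebra.ofId F _⟩, fun v _ => hunr v⟩,
    fun v _ => ⟨hunr v, fun w _ y => ⟨y, ?_⟩⟩, fun v => Or.inl (hunr v)⟩
  have h0 : y - y ∈ w.asIdeal := by
    rw [sub_self]
    exact zero_mem _
  exact h0

/-- The properties of the polynomials which are used. -/
structure Use (g : ℕ) (Q : Finset (HeightOneSpectrum (𝓞 F))) (f : (𝓞 F)[X]) : Prop where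
  monic : f.Monic
  degree : f.natDegree = 2 * g + 1
  irr : Irreducible (Pool.Agent.N783.PF.fF f)
  uni : Pool.Agent.H458.RC.Uni {𝔭 | ∃ v ∈ Q, 𝔭 = v.asIdeal} f f
  reg : ∀ v : HeightOneSpectrum (𝓞 F), (2 : 𝓞 F) ∈ v.asIdeal → Pool.Agent.H458.PD.RegAt v f

theorem use_of {g : ℕ} (hg : 1 ≤ g) {Q : Finset (HeightOneSpectrum (𝓞 F))} {f : (𝓞 F)[X]}
    (h : Use g Q f) (M : Type) [Field M] [NumberField M] [Algebra F M] (hM : InClass Q f M) :
    (∀ x y : M, y ^ 2 ≠ (polyOver M f).eval x) ∧
    ∀ (n : ℕ) (z : AdelicPoint (polyOver M f) (𝓞 M)),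
      Survives (2 ^ n) z ↔ ClassesArePowers (2 ^ n) z := by
  obtain ⟨v₀, hv₀⟩ := Pool.Agent.H458.PD.exists_two F
  obtain ⟨σ⟩ := hM.twoSplit.two v₀ hv₀
  obtain ⟨hdiv, hsha⟩ := selmer_of h.monic h.degree h.irr h.uni M hM
  obtain ⟨-, -, hJ, hC⟩ := Pool.Agent.H458.PD.glo_ring σ hv₀ (h.reg v₀ hv₀) h.monic h.degree
    h.irr.separable (P := polyOver M f) rfl hdiv
  have hPm : (polyOver M f).Monic := (h.monic.map _).map _
  have hPs : (polyOver M f).Separable := h.irr.separable.map
  have hPd : (polyOver M f).natDegree = 2 * g + 1 := by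
    unfold polyOver
    rw [(h.monic.map _).natDegree_map, h.monic.natDegree_map, h.degree]
  have hPo : Odd (polyOver M f).natDegree := by rw [hPd]; exact odd_two_mul_add_one g
  exact ⟨hC hg, fun n z => Pool.Agent.H458.BM.survives_iff two_ne_zero hPm hPs hPo hJ hsha n z⟩

theorem descent_of {g : ℕ} (hg : 1 ≤ g) {Q : Finset (HeightOneSpectrum (𝓞 F))} {r : ℕ}
    {f : Fin r → (𝓞 F)[X]} (h : ∀ i, Use g Q (f i)) (M : Type) [Field M] [NumberField M] [Algebra F M]
    (hM : ∀ i, InClass Q (f i) M) : Descent g M fun i => polyOver M (f i) := by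
  have hval : ∀ w : HeightOneSpectrum (𝓞 M), (2 : 𝓞 M) ∈ w.asIdeal → 0 < r →
      ∃ v : HeightOneSpectrum (𝓞 F), (2 : 𝓞 F) ∈ v.asIdeal ∧
        ∀ x : F, w.valuation M (algebraMap F M x) = v.valuation F x := by
    intro w hw hr
    exact at_two (hM ⟨0, hr⟩) w hw
  refine ⟨fun m X w hX z hz => ?_, fun m X w hw hX => ?_, fun m X w n hw hn hX z hz hs => ?_⟩
  · apply hX
    obtain ⟨t, ht0, ht⟩ := hz
    refine ⟨fun i => algebraMap M (w.adicCompletion M) (t i), ?_, fun G hG => ?_⟩
    · intro h0
      apply ht0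
      funext i
      exact (map_eq_zero _).1 (congrFun h0 i)
    · have hz0 : ∀ i, z i = none := by
        intro i
        cases hzi : z i with
        | none => rfl
        | some p =>
          exfalso
          have h1 := (use_of hg (h i) M (hM i)).1 p.1.1 p.1.2
          apply h1
          have h2 := p.2
          have hid : (polyOver M (f i)).map (algebraMap M M) = polyOver M (f i) := Polynomial.map_id
          exact h2.trans (congrArg (fun q : M[X] => q.eval p.1.1) hid)
      have h3 := ht G hG
      have e : (Sum.elim (fun i => algebraMap M (w.adicCompletion M) (t i)) fun s : Fin r × Fin 3 =>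
          Pool.Agent.H458.BM.wcoords (none : Point (polyOver M (f s.1)) (w.adicCompletion M)) s.2) =
          fun s => algebraMap M (w.adicCompletion M)
            ((Sum.elim t fun s : Fin r × Fin 3 => Pool.Agent.H458.BM.wcoords (z s.1) s.2) s) := by
        funext s
        rcases s with i | ⟨i, k⟩
        · rfl
        · simp only [Sum.elim_inr]
          rw [hz0 i]
          fin_cases k <;> simp [Pool.Agent.H458.BM.wcoords]
      rw [e]
      have h4 := (MvPolynomial.aeval_algebraMap_apply (w.adicCompletion M)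
        (Sum.elim t fun s : Fin r × Fin 3 => Pool.Agent.H458.BM.wcoords (z s.1) s.2) G)
      rw [h3, _root_.map_zero] at h4
      exact h4
  · rcases Nat.eq_zero_or_pos r with hr | hr
    · subst hr
      refine ⟨1, le_refl _, fun z hz _ => hX ?_⟩
      obtain ⟨t, ht0, ht⟩ := hz.1 w
      refine ⟨t, ht0, fun G hG => ?_⟩
      have h3 := ht G hG
      convert h3 using 3
      funext s
      rcases s with i | s
      · rfl
      · exact s.1.elim0
    · obtain ⟨v, hv, hvw⟩ := hval w hw hr
      obtain ⟨n, hn, h1⟩ := Pool.Agent.H458.BM.mfamily_bound (fun i => (h i).monic) hg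
        (fun i => (h i).degree) (fun i => rfl) hv (fun i => (h i).reg v hv) hvw X hX
      refine ⟨n, hn, fun z hz hs => h1 (fun i => (z i).finite w) (hz.1 w) fun i => ?_⟩
      exact (((use_of hg (h i) M (hM i)).2 n (z i)).1 (hs i)).1 w
  · refine hX (fun i => (z i).finite w) (hz.1 w) fun i => ?_
    obtain ⟨v, hv, hvw⟩ := at_two (hM i) w hw
    have h3 := (((use_of hg (h i) M (hM i)).2 n (z i)).1 (hs i)).1 w
    generalize (z i).finite w = q at h3 ⊢
    cases q with
    | none => trivial
    | some p =>
      exact Pool.Agent.H458.BM.point_bound (P := polyOver M (f i)) (h i).monic hg (h i).degree rfl hv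
        ((h i).reg v hv) hvw p hn h3

end pf

/-- **Finite descent on the varieties with morphisms to hyperelliptic curves.** For every number field `F`,
every `g ≥ 1`, every Galois extension `N / F` of 2-power degree in which the primes over `2` split completely
and every finite set `T` of primes of `F` there are a finite set `Q` of primes, disjoint from `T` and prime to
`2`, and a set `S` of polynomials of positive lower density such that `F` and `N` belong to the class
`C(f, Q)` for all `f ∈ S` and such that for all `f_1, ..., f_r ∈ S` and all `M` in the classes `C(f_i, Q)` and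
all projective varieties `X` over `M` with a morphism to the product of the curves `y ^ 2 = f_i(x)` without
points over the completion at some prime `w` over two above `(∞, ..., ∞)`: `X` has no point over `M`, and for
some `n` no adelic point of `X` lifts to the pull-back of a product of `2 ^ n`-coverings of the curves; the
level `n` is sufficient if `X` has no point over the completion above the neighbourhood
`|x_i| ≥ |2| ^ (- 2 n)` of `(∞, ..., ∞)`. -/
theorem result (F : Type) [Field F] [NumberField F] (g : ℕ) (hg : 1 ≤ g)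
    (N : Type) [Field N] [NumberField N] [Algebra F N] (hN : TwoSplit F N)
    (T : Finset (HeightOneSpectrum (𝓞 F))) :
    (∀ B : ℕ, (Polys F g B).Finite) ∧
    ∃ (Q : Finset (HeightOneSpectrum (𝓞 F))) (S : Set (𝓞 F)[X]), Disjoint Q T ∧
      (∀ v ∈ Q, (2 : 𝓞 F) ∉ v.asIdeal) ∧ (∀ f ∈ S, Good Q T N f) ∧ DescentFor g Q S ∧
      ∃ c : ℝ, 0 < c ∧ ∀ᶠ B : ℕ in atTop, 0 < (Polys F g B).ncard ∧
        c * ((Polys F g B).ncard : ℝ) ≤ ({f ∈ Polys F g B | f ∈ S}.ncard : ℝ) := by
  have heq : ∀ B, Polys F g B = {f : (𝓞 F)[X] | Pool.Agent.N783.PF.Ht g B f} := by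
    intro B
    ext f
    exact ⟨fun h => ⟨h.1.monic, h.1.degree, h.1.trace, fun j hj σ => h.2 j hj σ⟩,
      fun h => ⟨⟨h.mon, h.deg, h.tr⟩, fun j hj σ => h.ht j hj σ⟩⟩
  obtain ⟨f₂, hf₂m, hf₂d, hf₂t, hf₂i, hf₂r⟩ := Pool.Agent.H458.BM.ex5 F g hg
  obtain ⟨T', hT'⟩ := Pool.Agent.H458.RC.ram_fin F N
  obtain ⟨Q, hQ1, hQ2, hQ3, c, hc, B₀, hB₀⟩ := Pool.Agent.H458.RC.main F N hg (T ∪ T') 4
    (by norm_num) f₂ hf₂m hf₂d hf₂t hf₂i
  have hfin : ∀ B : ℕ, (Polys F g B).Finite := by
    intro B
    have h1 := (hB₀ (max B B₀) (le_max_right _ _)).1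
    rw [← heq] at h1
    refine h1.subset fun f hf => ⟨hf.1, fun j hj σ => ?_⟩
    refine (hf.2 j hj σ).trans ?_
    exact pow_le_pow_left₀ (Nat.cast_nonneg _) (by exact_mod_cast le_max_left B B₀) _
  refine ⟨hfin, Q, {f | Good Q T N f ∧ Use g Q f}, ?_, hQ2, fun f hf => hf.1,
    fun r f hf M _ _ _ hM => descent_of hg (fun i => (hf i).2) M hM, c, hc, ?_⟩
  · exact Finset.disjoint_of_subset_right Finset.subset_union_left hQ1
  filter_upwards [eventually_ge_atTop B₀] with B hB
  obtain ⟨hHt, hle⟩ := hB₀ B hB
  have hsub : {f : (𝓞 F)[X] | Pool.Agent.N783.PF.Ht g B f ∧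
      Irreducible (Pool.Agent.N783.PF.fF f) ∧
      (∀ v : HeightOneSpectrum (𝓞 F), (2 : 𝓞 F) ∈ v.asIdeal →
        Irreducible (Pool.Agent.N783.PF.rd v.asIdeal f)) ∧
      (∀ v ∈ T ∪ T', Irreducible (Pool.Agent.N783.PF.rd v.asIdeal f)) ∧
      Pool.Agent.N783.PF.Cg (Pool.Agent.N783.PF.sp F 4) f f₂ ∧ Pool.Agent.H458.RC.Mono f ∧
      Pool.Agent.N874.TF.Tws g {𝔭 | ∃ v ∈ Q, 𝔭 = v.asIdeal} f ∧
      Pool.Agent.H458.RC.Uni {𝔭 | ∃ v ∈ Q, 𝔭 = v.asIdeal} f f ∧
      Pool.Agent.N783.PF.Min g f} ⊆ {f ∈ Polys F g B | f ∈ {f | Good Q T N f ∧ Use g Q f}} := by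
    rintro f ⟨h1, h2, a1, a2, a3, a4, -, a6, -⟩
    have hR : ∀ v₀ : HeightOneSpectrum (𝓞 F), (2 : 𝓞 F) ∈ v₀.asIdeal →
        Pool.Agent.H458.PD.RegAt v₀ f := by
      intro v₀ hv₀
      refine (hf₂r v₀ hv₀).congr fun j => ?_
      have h5 := a3 j
      have h6 : (4 : 𝓞 F) ∈ v₀.asIdeal ^ 2 := by
        have h7 := Ideal.mul_mem_mul hv₀ hv₀
        rw [← pow_two] at h7
        norm_num at h7
        exact h7
      refine (Ideal.span_singleton_le_iff_mem _).2 (by exact_mod_cast h6) h5
    refine ⟨⟨⟨h1.mon, h1.deg, h1.tr⟩, fun j hj σ => h1.ht j hj σ⟩, ?_⟩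
    refine ⟨⟨h2, a1, fun v hv => a2 v (Finset.mem_union_left _ hv), base_mem,
      ⟨hN, fun v hv => ?_, fun v => ?_⟩⟩, ⟨h1.mon, h1.deg, h2, a6, hR⟩⟩
    · have h3 := hQ3 v hv
      exact ⟨fun w hw => Pool.Agent.H458.RC.unr_to h3.1 w hw,
        fun w hw y => Pool.Agent.H458.RC.spl_to h3 w hw y⟩
    · by_cases hv : v ∈ T'
      · exact Or.inr (a2 v (Finset.mem_union_right _ hv))
      · exact Or.inl (hT' v hv)
  have h1 := Set.ncard_le_ncard hsub ((hfin B).subset fun f hf => hf.1)
  refine ⟨?_, ?_⟩
  · rw [Set.ncard_pos (hfin B)]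
    refine ⟨X ^ (2 * g + 1), ⟨monic_X_pow _, natDegree_X_pow _, ?_⟩, fun j hj σ => ?_⟩
    · rw [coeff_X_pow, if_neg (by omega)]
    · rw [coeff_X_pow, if_neg (by omega)]
      have e0 : ((0 : 𝓞 F) : F) = 0 := rfl
      rw [e0, map_zero, norm_zero]
      positivity
  · rw [← heq] at hle
    exact hle.trans (by exact_mod_cast h1)

end Pool.Agent.Results.MP_d37f77_nt.CoversOfHyperellipticCurves
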