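import Pool.Agent.H912.AE.Fam2
import Pool.Agent.H912.AE.Dns

/-!
# The Hasse principle for most members of the power pull-backs of an arbitrary family

Let `(X_c)` be an arbitrary family of closed subsets of `ℙ^n` over `ℚ` with integral parameters
`c ∈ ℤ^R` (for instance a family of plane curves), and let
`X_{c,m} = {x ∈ ℙ^n : (x_0^m : ... : x_n^m) ∈ X_c}`.  We prove, without any hypothesis on the
family, that `100%` of all the `X_{c,m}` satisfy the Hasse principle: they have a rational point or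
they have no `ℚ_q`-point for a bounded prime `q`.  Moreover the proportion of the `X_{c,m}` with a
rational point exists, and it is `1`, `1/2` or `0`, according as the base locus of the family
`(X_c)` has a point with coordinates in `{0, 1}`, has a point with coordinates in `{0, 1, -1}`
but none with coordinates in `{0, 1}`, or has no point with coordinates in `{0, 1, -1}`.
-/

set_option autoImplicit false

open Filter Topology

namespace Pool.Agent.Results.MP_d37f77_nt.HasseForMostMembers

variable {R n : ℕ}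

/-- The polynomials in `S` define a family of closed subsets `X_c` of `ℙ^n` with the parameters
`c = (c_1, ..., c_R)`: they are forms in the last `n + 1` of their `R + (n + 1)` variables. -/
def IsFamily (S : Set (MvPolynomial (Fin (R + (n + 1))) ℚ)) : Prop :=
  ∀ F ∈ S, ∃ d, ∀ α ∈ F.support, ∑ j : Fin (n + 1), α (Fin.natAdd R j) = d

/-- `x` is a vector of homogeneous coordinates of a point over `K` of
`X_{c,m} = {x : F(c; x_0^m, ..., x_n^m) = 0 for all F in S}`. -/
def IsPt (S : Set (MvPolynomial (Fin (R + (n + 1))) ℚ)) (c : Fin R → ℤ) (m : ℕ) {K : Type}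
    [Field K] [Algebra ℚ K] (x : Fin (n + 1) → K) : Prop :=
  x ≠ 0 ∧ ∀ F ∈ S,
    MvPolynomial.aeval (Fin.append (fun i => (c i : K)) (fun j => x j ^ m)) F = 0

/-- `X_{c,m}` has a point over `K`. -/
def HasPt (S : Set (MvPolynomial (Fin (R + (n + 1))) ℚ)) (c : Fin R → ℤ) (m : ℕ) (K : Type)
    [Field K] [Algebra ℚ K] : Prop :=
  ∃ x : Fin (n + 1) → K, IsPt S c m x

/-- The base locus of the family (the intersection of all `X_c = X_{c,1}`, `c ∈ ℤ^R`) has a point
whose homogeneous coordinates may be chosen in `E`. -/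
def BasePt (S : Set (MvPolynomial (Fin (R + (n + 1))) ℚ)) (E : Set ℚ) : Prop :=
  ∃ η : Fin (n + 1) → ℚ, (∀ i, η i ∈ E) ∧ ∀ c : Fin R → ℤ, IsPt S c 1 η

open Classical in
/-- `1` if the base locus has a point with coordinates in `{0, 1}`, otherwise `1/2` if it has a
point with coordinates in `{0, 1, -1}`, otherwise `0`. -/
noncomputable def dens (S : Set (MvPolynomial (Fin (R + (n + 1))) ℚ)) : ℝ :=
  if BasePt S {0, 1} then 1 else if BasePt S {0, 1, -1} then 1 / 2 else 0

open Classical in
/-- The number of the `c` in the box `∏ [a_i, a_i + H_i)` with the property `P`. -/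
noncomputable def inBox (a : Fin R → ℤ) (H : Fin R → ℕ) (P : (Fin R → ℤ) → Prop) : ℕ :=
  ((Fintype.piFinset fun i => Finset.Ico (a i) (a i + H i)).filter P).card

/-- The number of the pairs `(m, c)` with `1 ≤ m ≤ M`, with `c` in the box
`∏ [a_i, a_i + H_i)`, and with the property `P m c`. -/
noncomputable def pairs (M : ℕ) (a : Fin R → ℤ) (H : Fin R → ℕ)
    (P : ℕ → (Fin R → ℤ) → Prop) : ℕ :=
  ∑ m ∈ Finset.Icc 1 M, inBox a H (P m)

/-- The set `A` of positive integers has natural density `δ`. -/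
def HasDensity (A : Set ℕ) (δ : ℝ) : Prop :=
  Tendsto (fun N : ℕ => ((A ∩ Set.Icc 1 N).ncard : ℝ) / N) atTop (𝓝 δ)

lemma inBox_le (a : Fin R → ℤ) (H : Fin R → ℕ) (P : (Fin R → ℤ) → Prop) :
    (inBox a H P : ℝ) ≤ ∏ i, (H i : ℝ) := by
  classical
  have h1 : inBox a H P ≤ ∏ i, H i := by
    refine (Finset.card_filter_le _ _).trans (le_of_eq ?_)
    rw [Fintype.card_piFinset]
    refine Finset.prod_congr rfl fun i _ => ?_
    rw [Int.card_Ico]
    omega
  exact_mod_cast h1

lemma inBox_true (a : Fin R → ℤ) (H : Fin R → ℕ) {P : (Fin R → ℤ) → Prop} (h : ∀ c, P c) :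
    (inBox a H P : ℝ) = ∏ i, (H i : ℝ) := by
  classical
  have h1 : inBox a H P = ∏ i, H i := by
    rw [inBox, Finset.filter_true_of_mem fun c _ => h c, Fintype.card_piFinset]
    refine Finset.prod_congr rfl fun i _ => ?_
    rw [Int.card_Ico]
    omega
  exact_mod_cast h1

lemma inBox_mono (a : Fin R → ℤ) (H : Fin R → ℕ) {P Q : (Fin R → ℤ) → Prop}
    (h : ∀ c, P c → Q c) : inBox a H P ≤ inBox a H Q := by
  classical
  exact Finset.card_le_card (Finset.monotone_filter_right _ fun c _ => h c)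

lemma inBox_false (a : Fin R → ℤ) (H : Fin R → ℕ) {P : (Fin R → ℤ) → Prop} (h : ∀ c, ¬ P c) :
    inBox a H P = 0 := by
  classical
  rw [inBox, Finset.filter_false_of_mem fun c _ => h c, Finset.card_empty]

/-- **Main theorem.** Let `(X_c)` be an arbitrary family of closed subsets of `ℙ^n` over `ℚ`,
with the parameters `c ∈ ℤ^R`, given by a set `S` of polynomials `F(c; y)` which are forms in `y`,
and let `X_{c,m} = {x : (x_0^m : ... : x_n^m) ∈ X_c}`.

1. (Hasse principle for `100%` of the members.)  For every `ε > 0` there is `H₀` such that, for all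
   `M ≥ H₀` and all boxes with sides `H_i ≥ H₀`, at most `ε M ∏ H_i` of the pairs `(m, c)` with
   `m ≤ M` and `c` in the box are such that `X_{c,m}` has no rational point although it has a
   `ℚ_q`-point for all primes `q ≤ H₀`.
2. (The proportion with a rational point.)  For every `ε > 0` there is `H₀` such that, for all
   `M ≥ H₀` and all boxes with sides `H_i ≥ H₀`, the number of the pairs `(m, c)` as above for
   which `X_{c,m}` has a rational point differs from `dens S * M ∏ H_i` by at most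
   `ε M ∏ H_i`, where `dens S` is `1` if the base locus of `(X_c)` has a point with coordinates in
   `{0, 1}`, otherwise `1/2` if it has a point with coordinates in `{0, 1, -1}`, otherwise `0`.
3. (Fixed `m`.)  For every `ε > 0`, the following holds for all `m` outside a set of density
   zero: either all `X_{c,m}` have a common rational point with coordinates in `{0, 1, -1}`, or
   there is `H₀` such that in every box with sides `≥ H₀` the proportion of the `c` for which
   `X_{c,m}` has a `ℚ_q`-point for all primes `q ≤ H₀` is at most `ε`. -/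
theorem result (S : Set (MvPolynomial (Fin (R + (n + 1))) ℚ)) (hS : IsFamily S) :
    (∀ ε : ℝ, 0 < ε → ∃ H₀ : ℕ, ∀ (M : ℕ) (a : Fin R → ℤ) (H : Fin R → ℕ), H₀ ≤ M →
      (∀ i, H₀ ≤ H i) → (pairs M a H (fun m c => (∀ (q : ℕ) [Fact q.Prime], q ≤ H₀ →
        HasPt S c m ℚ_[q]) ∧ ¬ HasPt S c m ℚ) : ℝ) ≤ ε * (M * ∏ i, (H i : ℝ))) ∧
    (∀ ε : ℝ, 0 < ε → ∃ H₀ : ℕ, ∀ (M : ℕ) (a : Fin R → ℤ) (H : Fin R → ℕ), H₀ ≤ M →
      (∀ i, H₀ ≤ H i) → |(pairs M a H (fun m c => HasPt S c m ℚ) : ℝ) -
        dens S * (M * ∏ i, (H i : ℝ))| ≤ ε * (M * ∏ i, (H i : ℝ))) ∧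
    ∀ ε : ℝ, 0 < ε → HasDensity {m |
      (∃ η : Fin (n + 1) → ℚ, (∀ i, η i = 0 ∨ η i = 1 ∨ η i = -1) ∧
        ∀ c : Fin R → ℤ, IsPt S c m η) ∨
      ∃ H₀ : ℕ, ∀ (a : Fin R → ℤ) (H : Fin R → ℕ), (∀ i, H₀ ≤ H i) →
        (inBox a H (fun c => ∀ (q : ℕ) [Fact q.Prime], q ≤ H₀ → HasPt S c m ℚ_[q]) : ℝ) ≤
          ε * ∏ i, (H i : ℝ)} 1 := by
  classical
  obtain ⟨S', hS', hSS⟩ := Pool.Agent.H912.AE.reduceF S hS
  -- points over `ℚ_q`
  have hQ : ∀ (c : Fin R → ℤ) (m q : ℕ) [Fact q.Prime],
      HasPt S c m ℚ_[q] → Pool.Agent.H912.AE.HasQ S' m c q := by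
    rintro c m q _ ⟨x, hx, h⟩
    exact ⟨x, hx, (hSS ℚ_[q] _).2 h⟩
  -- trivial points
  have hT : ∀ m, Pool.Agent.H912.AE.TrivB S' m ↔ ∃ η : Fin (n + 1) → ℚ,
      (∀ i, η i = 0 ∨ η i = 1 ∨ η i = -1) ∧ ∀ c : Fin R → ℤ, IsPt S c m η := by
    intro m
    have hcast : ∀ (η : Fin (n + 1) → ℤ) (c : Fin R → ℤ) (F : MvPolynomial _ ℤ),
        ((MvPolynomial.aeval (Fin.append c (fun i => η i ^ m)) F : ℤ) : ℚ) =
        MvPolynomial.aeval (Fin.append (fun i => ((c i : ℤ) : ℚ))
          (fun i => ((η i : ℤ) : ℚ) ^ m)) F := by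
      intro η c F
      have h1 := Pool.Agent.H912.AE.aeval_ringHom (Int.castRingHom ℚ)
        (Fin.append c (fun i => η i ^ m)) F
      rw [Pool.Agent.H912.AE.append_hom] at h1
      simp only [map_pow, eq_intCast] at h1
      exact h1
    constructor
    · rintro ⟨η, h0, h1, h2⟩
      refine ⟨fun i => (η i : ℚ), fun i => ?_, fun c => ⟨?_, ?_⟩⟩
      · rcases h1 i with h | h | h <;> simp [h]
      · intro h
        apply h0
        funext i
        have := congrFun h i
        simpa using this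
      · refine (hSS ℚ _).1 fun F hF => ?_
        have h3 := hcast η c F
        rw [h2 F hF c, Int.cast_zero] at h3
        exact h3.symm
    · rintro ⟨η, h1, h2⟩
      have h3 : ∀ i, ∃ e : ℤ, (e = -1 ∨ e = 0 ∨ e = 1) ∧ (e : ℚ) = η i := by
        intro i
        rcases h1 i with h | h | h
        · exact ⟨0, by simp, by simp [h]⟩
        · exact ⟨1, by simp, by simp [h]⟩
        · exact ⟨-1, by simp, by simp [h]⟩
      choose e he1 he2 using h3
      refine ⟨e, ?_, he1, fun F hF c => ?_⟩
      · intro h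
        apply (h2 0).1
        funext i
        rw [← he2, h]
        simp
      · have h3 := (hSS ℚ _).2 (h2 c).2 F hF
        have h4 := hcast e c F
        simp only [he2] at h4
        rw [h3] at h4
        exact_mod_cast h4
  have hTpt : ∀ m, Pool.Agent.H912.AE.TrivB S' m → ∀ c, HasPt S c m ℚ := by
    intro m hm c
    obtain ⟨η, -, h⟩ := (hT m).1 hm
    exact ⟨η, h c⟩
  have hloc : ∀ (c : Fin R → ℤ) (m q : ℕ) [Fact q.Prime], HasPt S c m ℚ →
      HasPt S c m ℚ_[q] := by
    rintro c m q _ ⟨x, hx, h⟩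
    refine ⟨fun i => (x i : ℚ_[q]), ?_, ?_⟩
    · intro h0
      apply hx
      funext i
      have := congrFun h0 i
      simpa using this
    · refine (hSS ℚ_[q] _).1 fun F hF => ?_
      have h1 := (hSS ℚ _).2 h F hF
      have h2 := Pool.Agent.H912.AE.aeval_ringHom (algebraMap ℚ ℚ_[q])
        (Fin.append (fun i => (c i : ℚ)) (fun j => x j ^ m)) F
      rw [h1, map_zero, Pool.Agent.H912.AE.append_hom] at h2
      simp only [map_pow, eq_ratCast, Rat.cast_intCast] at h2
      exact h2.symm
  -- the counting statement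
  have hmain : ∀ ε : ℝ, 0 < ε → ∃ H₀ N₀ : ℕ, ∀ M : ℕ, N₀ ≤ M →
      (((Finset.range M).filter (fun m => ¬ (Pool.Agent.H912.AE.TrivB S' m ∨
        ∀ (a : Fin R → ℤ) (H : Fin R → ℕ), (∀ i, H₀ ≤ H i) →
          (inBox a H (fun c => ∀ (q : ℕ) [Fact q.Prime], q ≤ H₀ → HasPt S c m ℚ_[q]) : ℝ) ≤
            ε * ∏ i, (H i : ℝ)))).card : ℝ) ≤ ε * M := by
    intro ε hε
    obtain ⟨H₀, N₀, h⟩ := Pool.Agent.H912.AE.families S' hS' hε
    refine ⟨H₀, N₀, fun M hM => le_trans ?_ (h M hM)⟩
    have h1 : (Finset.range M).filter (fun m => ¬ (Pool.Agent.H912.AE.TrivB S' m ∨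
        ∀ (a : Fin R → ℤ) (H : Fin R → ℕ), (∀ i, H₀ ≤ H i) →
          (inBox a H (fun c => ∀ (q : ℕ) [Fact q.Prime], q ≤ H₀ → HasPt S c m ℚ_[q]) : ℝ) ≤
            ε * ∏ i, (H i : ℝ))) ⊆
        (Finset.range M).filter (fun m => ¬ (Pool.Agent.H912.AE.TrivB S' m ∨
        ∀ (a : Fin R → ℤ) (H : Fin R → ℕ), (∀ i, H₀ ≤ H i) →
        (((Fintype.piFinset fun i => Finset.Ico (a i) (a i + H i)).filter (fun c =>
          ∀ (q : ℕ) [Fact q.Prime], q ≤ H₀ → Pool.Agent.H912.AE.HasQ S' m c q)).card : ℝ)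
          ≤ ε * ∏ i, (H i : ℝ))) := by
      intro m hm
      rw [Finset.mem_filter] at hm ⊢
      refine ⟨hm.1, fun h2 => hm.2 (h2.imp id fun h3 a H hH => le_trans ?_ (h3 a H hH))⟩
      have h4 : inBox a H (fun c => ∀ (q : ℕ) [Fact q.Prime], q ≤ H₀ → HasPt S c m ℚ_[q]) ≤
          ((Fintype.piFinset fun i => Finset.Ico (a i) (a i + H i)).filter (fun c =>
          ∀ (q : ℕ) [Fact q.Prime], q ≤ H₀ → Pool.Agent.H912.AE.HasQ S' m c q)).card :=
        Finset.card_le_card
          (Finset.monotone_filter_right _ fun c _ hc q _ hq => hQ c m q (hc q hq))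
      exact_mod_cast h4
    exact_mod_cast Finset.card_le_card h1
  -- the sum over `m`
  have hsum : ∀ ε : ℝ, 0 < ε → ∃ H₀ : ℕ, ∀ (M : ℕ) (a : Fin R → ℤ) (H : Fin R → ℕ), H₀ ≤ M →
      (∀ i, H₀ ≤ H i) → ((∑ m ∈ Finset.Icc 1 M, if Pool.Agent.H912.AE.TrivB S' m then (0 : ℝ) else
        (inBox a H (fun c => ∀ (q : ℕ) [Fact q.Prime], q ≤ H₀ → HasPt S c m ℚ_[q]) : ℝ))) ≤
          ε * (M * ∏ i, (H i : ℝ)) := by
    intro ε hε
    obtain ⟨H₀, N₀, h⟩ := hmain (ε / 3) (by positivity)
    refine ⟨max H₀ (max N₀ 1), fun M a H hM hH => ?_⟩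
    have hM1 : 1 ≤ M := (le_max_right _ _).trans ((le_max_right _ _).trans hM)
    have hMN : N₀ ≤ M + 1 := by
      have := (le_max_left N₀ 1).trans ((le_max_right _ _).trans hM)
      omega
    have hH' : ∀ i, H₀ ≤ H i := fun i => (le_max_left _ _).trans (hH i)
    have hP : (0 : ℝ) ≤ ∏ i, (H i : ℝ) := Finset.prod_nonneg fun i _ => Nat.cast_nonneg _
    have h1 := h (M + 1) hMN
    set B := (Finset.range (M + 1)).filter (fun m => ¬ (Pool.Agent.H912.AE.TrivB S' m ∨
        ∀ (a : Fin R → ℤ) (H : Fin R → ℕ), (∀ i, H₀ ≤ H i) →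
          (inBox a H (fun c => ∀ (q : ℕ) [Fact q.Prime], q ≤ H₀ → HasPt S c m ℚ_[q]) : ℝ) ≤
            ε / 3 * ∏ i, (H i : ℝ))) with hB
    have h2 : ∀ m ∈ Finset.Icc 1 M, (if Pool.Agent.H912.AE.TrivB S' m then (0 : ℝ) else
        (inBox a H (fun c => ∀ (q : ℕ) [Fact q.Prime], q ≤ max H₀ (max N₀ 1) →
          HasPt S c m ℚ_[q]) : ℝ)) ≤
        (if m ∈ B then ∏ i, (H i : ℝ) else 0) + ε / 3 * ∏ i, (H i : ℝ) := by
      intro m hm
      by_cases ht : Pool.Agent.H912.AE.TrivB S' m
      · rw [if_pos ht]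
        split_ifs <;> positivity
      · rw [if_neg ht]
        by_cases hmB : m ∈ B
        · rw [if_pos hmB]
          have := inBox_le a H (fun c => ∀ (q : ℕ) [Fact q.Prime], q ≤ max H₀ (max N₀ 1) →
            HasPt S c m ℚ_[q])
          have h3 : 0 ≤ ε / 3 * ∏ i, (H i : ℝ) := by positivity
          linarith
        · rw [if_neg hmB, zero_add]
          have h3 : Pool.Agent.H912.AE.TrivB S' m ∨
              ∀ (a : Fin R → ℤ) (H : Fin R → ℕ), (∀ i, H₀ ≤ H i) →
              (inBox a H (fun c => ∀ (q : ℕ) [Fact q.Prime], q ≤ H₀ → HasPt S c m ℚ_[q]) : ℝ) ≤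
              ε / 3 * ∏ i, (H i : ℝ) := by
            by_contra h4
            apply hmB
            rw [hB, Finset.mem_filter, Finset.mem_range]
            exact ⟨by have := (Finset.mem_Icc.1 hm).2; omega, h4⟩
          rcases h3 with h3 | h3
          · exact absurd h3 ht
          · refine le_trans ?_ (h3 a H hH')
            have h4 := inBox_mono a H (P := fun c => ∀ (q : ℕ) [Fact q.Prime],
              q ≤ max H₀ (max N₀ 1) → HasPt S c m ℚ_[q])
              (Q := fun c => ∀ (q : ℕ) [Fact q.Prime], q ≤ H₀ → HasPt S c m ℚ_[q])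
              (fun c hc q _ hq => hc q (hq.trans (le_max_left _ _)))
            exact_mod_cast h4
    refine (Finset.sum_le_sum h2).trans ?_
    rw [Finset.sum_add_distrib, Finset.sum_const, Nat.card_Icc, Nat.add_sub_cancel, nsmul_eq_mul,
      ← Finset.sum_filter, Finset.sum_const, nsmul_eq_mul]
    have h3 : (((Finset.Icc 1 M).filter (fun m => m ∈ B)).card : ℝ) ≤ (B.card : ℝ) := by
      have : ((Finset.Icc 1 M).filter (fun m => m ∈ B)).card ≤ B.card :=
        Finset.card_le_card fun m hm => (Finset.mem_filter.1 hm).2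
      exact_mod_cast this
    have h4 : (B.card : ℝ) ≤ ε / 3 * (M + 1) := by
      have := h1
      push_cast at this
      exact this
    have hM1' : (1 : ℝ) ≤ M := by exact_mod_cast hM1
    have h5 : (((Finset.Icc 1 M).filter (fun m => m ∈ B)).card : ℝ) ≤ ε / 3 * (2 * M) := by
      refine h3.trans (h4.trans ?_)
      gcongr
      linarith
    have h6 := mul_le_mul_of_nonneg_right h5 hP
    nlinarith
  refine ⟨fun ε hε => ?_, fun ε hε => ?_, fun ε hε => ?_⟩
  · obtain ⟨H₀, h⟩ := hsum ε hε
    refine ⟨H₀, fun M a H hM hH => le_trans ?_ (h M a H hM hH)⟩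
    rw [pairs, Nat.cast_sum]
    refine Finset.sum_le_sum fun m _ => ?_
    by_cases ht : Pool.Agent.H912.AE.TrivB S' m
    · rw [if_pos ht, inBox_false a H fun c hc => hc.2 (hTpt m ht c), Nat.cast_zero]
    · rw [if_neg ht]
      have h4 := inBox_mono a H (P := fun c => (∀ (q : ℕ) [Fact q.Prime], q ≤ H₀ →
        HasPt S c m ℚ_[q]) ∧ ¬ HasPt S c m ℚ)
        (Q := fun c => ∀ (q : ℕ) [Fact q.Prime], q ≤ H₀ → HasPt S c m ℚ_[q])
        (fun c hc => hc.1)
      exact_mod_cast h4
  · obtain ⟨H₀, h⟩ := hsum (ε / 2) (by positivity)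
    obtain ⟨H₁, hH₁⟩ := exists_nat_ge (1 / ε)
    refine ⟨max H₀ H₁, fun M a H hM hH => ?_⟩
    have h1 := h M a H ((le_max_left _ _).trans hM) fun i => (le_max_left _ _).trans (hH i)
    set P := ∏ i, (H i : ℝ) with hPdef
    have hP : (0 : ℝ) ≤ P := Finset.prod_nonneg fun i _ => Nat.cast_nonneg _
    -- the number of `m` with a trivial point
    have h2 : |(∑ m ∈ Finset.Icc 1 M, if Pool.Agent.H912.AE.TrivB S' m then (1 : ℝ) else 0) -
        dens S * M| ≤ 1 / 2 := by
      have hodd : ∀ m, Odd m → (Pool.Agent.H912.AE.TrivB S' m ↔ BasePt S {0, 1, -1}) := by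
        intro m hm
        rw [hT m, BasePt]
        refine exists_congr fun η => ?_
        have h0 : (∀ i, η i ∈ ({0, 1, -1} : Set ℚ)) ↔
            ∀ i, η i = 0 ∨ η i = 1 ∨ η i = -1 := by
          simp only [Set.mem_insert_iff, Set.mem_singleton_iff]
        rw [h0]
        refine and_congr_right fun h1 => forall_congr' fun c => ?_
        have h2 : (fun j => η j ^ m) = fun j => η j ^ 1 := by
          funext j
          rcases h1 j with h | h | h
          · rw [h, zero_pow (by rintro rfl; simp at hm), zero_pow one_ne_zero]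
          · rw [h, one_pow, one_pow]
          · rw [h, hm.neg_one_pow, pow_one]
        unfold IsPt
        rw [h2]
      have heven : ∀ m, Even m → 1 ≤ m → (Pool.Agent.H912.AE.TrivB S' m ↔ BasePt S {0, 1}) := by
        intro m hm hm1
        have hm0 : m ≠ 0 := by omega
        rw [hT m]
        constructor
        · rintro ⟨η, h1, h2⟩
          refine ⟨fun i => η i ^ m, fun i => ?_, fun c => ⟨?_, ?_⟩⟩
          · rcases h1 i with h | h | h
            · simp [h, hm0]
            · simp [h]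
            · simp [h, hm.neg_one_pow]
          · intro h0
            apply (h2 c).1
            funext i
            have := congrFun h0 i
            simp only [Pi.zero_apply] at this ⊢
            exact pow_eq_zero_iff hm0 |>.1 this
          · intro F hF
            have := (h2 c).2 F hF
            simp only [pow_one]
            exact this
        · rintro ⟨η, h1, h2⟩
          have h3 : ∀ i, η i = 0 ∨ η i = 1 := by
            intro i
            have := h1 i
            simpa using this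
          refine ⟨η, fun i => (h3 i).imp id Or.inl, fun c => ⟨(h2 c).1, fun F hF => ?_⟩⟩
          have h4 := (h2 c).2 F hF
          have h5 : (fun j => η j ^ m) = fun j => η j ^ 1 := by
            funext j
            rcases h3 j with h | h
            · rw [h, zero_pow hm0, zero_pow one_ne_zero]
            · rw [h, one_pow, one_pow]
          rw [h5]
          exact h4
      have h01 : BasePt S {0, 1} → BasePt S {0, 1, -1} := by
        rintro ⟨η, h1, h2⟩
        refine ⟨η, fun i => ?_, h2⟩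
        have := h1 i
        simp only [Set.mem_insert_iff, Set.mem_singleton_iff] at this ⊢
        tauto
      unfold dens
      by_cases hb1 : BasePt S {0, 1}
      · have h3 : ∀ m ∈ Finset.Icc 1 M,
            (if Pool.Agent.H912.AE.TrivB S' m then (1 : ℝ) else 0) = 1 := by
          intro m hm
          rw [if_pos]
          rcases Nat.even_or_odd m with he | ho
          · exact (heven m he (Finset.mem_Icc.1 hm).1).2 hb1
          · exact (hodd m ho).2 (h01 hb1)
        rw [Finset.sum_congr rfl h3, if_pos hb1, Finset.sum_const, Nat.card_Icc,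
          Nat.add_sub_cancel]
        simp
      · by_cases hb2 : BasePt S {0, 1, -1}
        · rw [if_neg hb1, if_pos hb2]
          have h3 : ∀ m ∈ Finset.Icc 1 M,
              (if Pool.Agent.H912.AE.TrivB S' m then (1 : ℝ) else 0) =
                if Odd m then (1 : ℝ) else 0 := by
            intro m hm
            rcases Nat.even_or_odd m with he | ho
            · rw [if_neg (fun h => hb1 ((heven m he (Finset.mem_Icc.1 hm).1).1 h)),
                if_neg (Nat.not_odd_iff_even.2 he)]
            · rw [if_pos ((hodd m ho).2 hb2), if_pos ho]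
          rw [Finset.sum_congr rfl h3, ← Finset.sum_filter, Finset.sum_const, nsmul_eq_mul, mul_one]
          have h4 : ((Finset.Icc 1 M).filter Odd).card = (M + 1) / 2 := by
            rw [← Pool.Agent.H912.AE.card_odd M, ← Set.ncard_coe_finset]
            congr 1
            ext m
            simp only [Finset.coe_filter, Finset.mem_Icc, Set.mem_ofPred_eq, Set.mem_inter_iff,
              Set.mem_Icc]
            tauto
          rw [h4, abs_le]
          have h5 : M ≤ 2 * ((M + 1) / 2) := by omega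
          have h6 : 2 * ((M + 1) / 2) ≤ M + 1 := by omega
          have h5' : (M : ℝ) ≤ 2 * (((M + 1) / 2 : ℕ) : ℝ) := by exact_mod_cast h5
          have h6' : 2 * (((M + 1) / 2 : ℕ) : ℝ) ≤ M + 1 := by exact_mod_cast h6
          constructor <;> linarith
        · rw [if_neg hb1, if_neg hb2]
          have h3 : ∀ m ∈ Finset.Icc 1 M,
              (if Pool.Agent.H912.AE.TrivB S' m then (1 : ℝ) else 0) = 0 := by
            intro m hm
            rw [if_neg]
            rcases Nat.even_or_odd m with he | ho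
            · exact fun h => hb1 ((heven m he (Finset.mem_Icc.1 hm).1).1 h)
            · exact fun h => hb2 ((hodd m ho).1 h)
          rw [Finset.sum_congr rfl h3]
          simp
    have h3 : |(pairs M a H (fun m c => HasPt S c m ℚ) : ℝ) -
        (∑ m ∈ Finset.Icc 1 M, if Pool.Agent.H912.AE.TrivB S' m then (1 : ℝ) else 0) * P| ≤
        ε / 2 * (M * P) := by
      refine le_trans ?_ h1
      rw [pairs, Nat.cast_sum, Finset.sum_mul, ← Finset.sum_sub_distrib]
      refine (Finset.abs_sum_le_sum_abs _ _).trans (Finset.sum_le_sum fun m _ => ?_)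
      by_cases ht : Pool.Agent.H912.AE.TrivB S' m
      · rw [if_pos ht, if_pos ht, one_mul, inBox_true a H fun c => hTpt m ht c, sub_self, abs_zero]
      · rw [if_neg ht, if_neg ht, zero_mul, sub_zero, abs_of_nonneg (Nat.cast_nonneg _)]
        have h4 := inBox_mono a H (P := fun c => HasPt S c m ℚ)
          (Q := fun c => ∀ (q : ℕ) [Fact q.Prime], q ≤ H₀ → HasPt S c m ℚ_[q])
          (fun c hc q _ _ => hloc c m q hc)
        exact_mod_cast h4
    have hM1 : (H₁ : ℝ) ≤ M := by exact_mod_cast (le_max_right H₀ H₁).trans hM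
    have h4 : 1 / 2 * P ≤ ε / 2 * (M * P) := by
      have h5 : 1 ≤ ε * M := by
        rw [div_le_iff₀ hε] at hH₁
        nlinarith
      nlinarith
    have h5 : |(∑ m ∈ Finset.Icc 1 M, if Pool.Agent.H912.AE.TrivB S' m then (1 : ℝ) else 0) * P -
        dens S * (M * P)| ≤ 1 / 2 * P := by
      have h6 : (∑ m ∈ Finset.Icc 1 M, if Pool.Agent.H912.AE.TrivB S' m then (1 : ℝ) else 0) * P -
          dens S * (M * P) = ((∑ m ∈ Finset.Icc 1 M,
            if Pool.Agent.H912.AE.TrivB S' m then (1 : ℝ) else 0) - dens S * M) * P := by ring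
      rw [h6, abs_mul, abs_of_nonneg hP]
      exact mul_le_mul_of_nonneg_right h2 hP
    have h6 := abs_sub_le (pairs M a H (fun m c => HasPt S c m ℚ) : ℝ)
      ((∑ m ∈ Finset.Icc 1 M, if Pool.Agent.H912.AE.TrivB S' m then (1 : ℝ) else 0) * P)
      (dens S * (M * P))
    linarith
  · refine Pool.Agent.H912.AE.full_of fun ε' hε' => ?_
    obtain ⟨H₀, N₀, h⟩ := hmain (min ε ε') (lt_min hε hε')
    refine ⟨N₀, fun M hM => le_trans ?_ ((h M hM).trans
      (mul_le_mul_of_nonneg_right (min_le_right _ _) (Nat.cast_nonneg _)))⟩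
    have h1 : (Finset.range M).filter (fun m => m ∉ {m | (∃ η : Fin (n + 1) → ℚ,
        (∀ i, η i = 0 ∨ η i = 1 ∨ η i = -1) ∧ ∀ c : Fin R → ℤ, IsPt S c m η) ∨
      ∃ H₀ : ℕ, ∀ (a : Fin R → ℤ) (H : Fin R → ℕ), (∀ i, H₀ ≤ H i) →
        (inBox a H (fun c => ∀ (q : ℕ) [Fact q.Prime], q ≤ H₀ → HasPt S c m ℚ_[q]) : ℝ) ≤
          ε * ∏ i, (H i : ℝ)}) ⊆
        (Finset.range M).filter (fun m => ¬ (Pool.Agent.H912.AE.TrivB S' m ∨
        ∀ (a : Fin R → ℤ) (H : Fin R → ℕ), (∀ i, H₀ ≤ H i) →
          (inBox a H (fun c => ∀ (q : ℕ) [Fact q.Prime], q ≤ H₀ → HasPt S c m ℚ_[q]) : ℝ) ≤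
            min ε ε' * ∏ i, (H i : ℝ))) := by
      intro m hm
      rw [Finset.mem_filter] at hm ⊢
      refine ⟨hm.1, fun h2 => hm.2 ?_⟩
      rcases h2 with h2 | h2
      · exact Or.inl ((hT m).1 h2)
      · refine Or.inr ⟨H₀, fun a H hH => (h2 a H hH).trans ?_⟩
        exact mul_le_mul_of_nonneg_right (min_le_left _ _)
          (Finset.prod_nonneg fun i _ => Nat.cast_nonneg _)
    exact_mod_cast Finset.card_le_card h1

end Pool.Agent.Results.MP_d37f77_nt.HasseForMostMembers
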