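import Pool.Agent.H326.DL.E
import Pool.Agent.H573.AHB.DnB

/-!
# MP_d37f77_nt: power covers of lines, uniformly in the coefficients

Let `k ≥ 4`, `α, β : Fin k → ℤ` with `α i β j ≠ α j β i` for `i ≠ j`, and `N ≥ 1`. Let `X` be the
curve of all `(x_0 : ... : x_{k-1})` such that `(x_i ^ N)` lies on the line through `α` and `β`,
that is, `x_i ^ N = α i * l + β i * m` (a smooth complete intersection of `k - 2` diagonal
hypersurfaces of degree `N` in `P^{k-1}`; for `k = 4` of two diagonal surfaces). `Trivial α β`: the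
line has a point with all coordinates in `{0, 1, -1}`.

(1) There are `δ > 0` and a set `S` of primes of positive logarithmic proportion, and for each
`s ∈ S` a set `G` of at least `s^δ` primes `q ≡ 1 (mod s)`, such that for ALL `k`, `α`, `β` with
`|α i|, |β i| ≤ s^δ`, not trivial, and all multiples `N` of `s`, `X` has no `ℚ_q`-point for all
`q ∈ G`.
(2) For every `η > 0` there is `κ > 0` such that for all large `X` and all but at most `η X`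
integers `N ≤ X`: for ALL `k`, `α`, `β` with `|α i|, |β i| ≤ N^κ`, not trivial, `X` has no
`ℚ_q`-points for at least `N^κ` primes `q`.
(3) If `N` is odd and `(α, β)` is trivial, then `X` has a rational point.
-/

namespace Pool.Agent.Results.MP_d37f77_nt.PowerCoversOfLines

open Pool.Agent.H573.AHB Pool.Agent.H326.DL

/-- no two of the linear forms are proportional -/
def Independent {k : ℕ} (α β : Fin k → ℤ) : Prop := ∀ i j, i ≠ j → α i * β j ≠ α j * β i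

/-- the curve has a point over `F` -/
def HasPoint (F : Type) [Field F] {k : ℕ} (N : ℕ) (α β : Fin k → ℤ) : Prop :=
  ∃ x : Fin k → F, (∃ i, x i ≠ 0) ∧ ∃ l m : F, ∀ i, x i ^ N = (α i : F) * l + (β i : F) * m

/-- the line has a point with coordinates in `{0, 1, -1}` -/
def Trivial {k : ℕ} (α β : Fin k → ℤ) : Prop :=
  ∃ a b : ℚ, (∀ i, α i * a + β i * b = 0 ∨ α i * a + β i * b = 1 ∨ α i * a + β i * b = -1) ∧
    ∃ i, α i * a + β i * b ≠ 0

/-- all nontrivial curves with exponent `N ≥ 1` and coefficients at most `Z` have no points over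
`ℚ_q` for at least `Z` primes `q` -/
def ManyObstructions (N : ℕ) (Z : ℝ) : Prop :=
  0 < N → ∀ k : ℕ, 4 ≤ k → ∀ α β : Fin k → ℤ, (∀ i, |(α i : ℝ)| ≤ Z ∧ |(β i : ℝ)| ≤ Z) →
    Independent α β → ¬ Trivial α β → ∃ G : Finset ℕ, Z ≤ (G.card : ℝ) ∧ ∀ q ∈ G, q.Prime ∧
      ∀ _ : Fact q.Prime, ¬ HasPoint ℚ_[q] N α β

theorem result :
    (∃ δ : ℝ, 0 < δ ∧ ∃ S : Set ℕ, (∀ s ∈ S, s.Prime) ∧
      (∃ c : ℝ, 0 < c ∧ ∃ X₀ : ℕ, ∀ X : ℕ, X₀ ≤ X →
        c ≤ ∑ᶠ s ∈ {s : ℕ | s ∈ S ∧ (X : ℝ) ^ (5 / 8 : ℝ) ≤ s ∧ s ≤ X}, (1 : ℝ) / s) ∧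
      ∀ s ∈ S, ∃ G : Finset ℕ, (s : ℝ) ^ δ ≤ (G.card : ℝ) ∧ (∀ q ∈ G, q.Prime ∧ s ∣ q - 1) ∧
        ∀ k : ℕ, 4 ≤ k → ∀ α β : Fin k → ℤ,
          (∀ i, |(α i : ℝ)| ≤ (s : ℝ) ^ δ ∧ |(β i : ℝ)| ≤ (s : ℝ) ^ δ) → Independent α β →
          ¬ Trivial α β → ∀ N : ℕ, 0 < N → s ∣ N →
            ∀ q ∈ G, ∀ _ : Fact q.Prime, ¬ HasPoint ℚ_[q] N α β) ∧
    (∀ η : ℝ, 0 < η → ∃ κ : ℝ, 0 < κ ∧ ∃ X₁ : ℕ, ∀ X : ℕ, X₁ ≤ X →
      (Set.ncard {N : ℕ | N ≤ X ∧ ¬ ManyObstructions N ((N : ℝ) ^ κ)} : ℝ) ≤ η * X) ∧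
    (∀ (k N : ℕ) (α β : Fin k → ℤ), Odd N → Trivial α β → HasPoint ℚ N α β) := by
  classical
  obtain ⟨δ, hδ0, hδ1, S, hS, hdens⟩ := diagV 1 le_rfl _ usparse_BD 5
  have main : ∀ s ∈ S, ∃ G : Finset ℕ, (s : ℝ) ^ δ ≤ (G.card : ℝ) ∧
      (∀ q ∈ G, q.Prime ∧ s ∣ q - 1) ∧
        ∀ k : ℕ, 4 ≤ k → ∀ α β : Fin k → ℤ,
          (∀ i, |(α i : ℝ)| ≤ (s : ℝ) ^ δ ∧ |(β i : ℝ)| ≤ (s : ℝ) ^ δ) → Independent α β →
          ¬ Trivial α β → ∀ N : ℕ, 0 < N → s ∣ N →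
            ∀ q ∈ G, ∀ _ : Fact q.Prime, ¬ HasPoint ℚ_[q] N α β := by
    intro s hs
    obtain ⟨hsp, hs2, G, hG1, hG2⟩ := hS s hs
    have hs1 : (1 : ℝ) ≤ s := by exact_mod_cast (by omega : 1 ≤ s)
    refine ⟨G, hG1, fun q hq => ⟨(hG2 q hq).1, (hG2 q hq).2.2.1⟩, ?_⟩
    rintro k hk α β hαβ hind htriv N hN0 ⟨N', rfl⟩ q hq hF ⟨x, hx, l, m, hlm⟩
    apply htriv
    obtain ⟨k1, -, k3, k4⟩ := hG2 q hq
    obtain ⟨M, hM⟩ : ∃ M, M = ⌊(s : ℝ) ^ δ⌋₊ := ⟨_, rfl⟩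
    have hpos : (0 : ℝ) ≤ (s : ℝ) ^ δ := Real.rpow_nonneg (by linarith) _
    have hMr : (M : ℝ) ≤ (s : ℝ) ^ δ := by rw [hM]; exact Nat.floor_le hpos
    have hbd : ∀ c : ℤ, |(c : ℝ)| ≤ (s : ℝ) ^ δ → |c| ≤ M := by
      intro c hc
      have h1 : ((c.natAbs : ℕ) : ℝ) ≤ (s : ℝ) ^ δ := by
        rw [Nat.cast_natAbs, Int.cast_abs]
        exact hc
      have h2 : c.natAbs ≤ M := by rw [hM]; exact Nat.le_floor h1
      rw [Int.abs_eq_natAbs]
      exact_mod_cast h2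
    have hM8 : M ^ 8 ≤ s := by
      have h1 : ((M : ℝ)) ^ 8 ≤ ((s : ℝ) ^ δ) ^ 8 := pow_le_pow_left₀ (Nat.cast_nonneg M) hMr 8
      have h2 : ((s : ℝ) ^ δ) ^ 8 ≤ s := by
        rw [← Real.rpow_natCast, ← Real.rpow_mul (by linarith)]
        calc (s : ℝ) ^ (δ * ((8 : ℕ) : ℝ)) ≤ (s : ℝ) ^ (1 : ℝ) := by
              apply Real.rpow_le_rpow_of_exponent_le hs1
              push_cast
              linarith
          _ = s := Real.rpow_one _
      exact_mod_cast h1.trans h2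
    have hMq : 6 * M ^ 2 < q := by
      have hsq : s ≤ q - 1 := Nat.le_of_dvd (by have := k1.two_le; omega) k3
      rcases Nat.lt_or_ge M 2 with h | h
      · have : M ^ 2 ≤ 1 := by
          calc M ^ 2 ≤ 1 ^ 2 := Nat.pow_le_pow_left (by omega) 2
            _ = 1 := by norm_num
        omega
      · have h1 : 2 ^ 6 ≤ M ^ 6 := Nat.pow_le_pow_left h 6
        have h2 : M ^ 8 = M ^ 6 * M ^ 2 := by ring
        have h3 : 6 * M ^ 2 ≤ M ^ 6 * M ^ 2 := Nat.mul_le_mul_right _ (by omega)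
        omega
    have hR : ∀ i j r, (dt α β j r : ℚ_[q]) * x i ^ (s * N') + (dt α β r i : ℚ_[q]) *
        x j ^ (s * N') + (dt α β i j : ℚ_[q]) * x r ^ (s * N') = 0 := by
      intro i j r
      rw [hlm, hlm, hlm]
      unfold dt
      push_cast
      ring
    obtain ⟨w, ⟨i1, hw⟩, hwR⟩ := padic_red α β (s * N') x hx hR
    exact mod_main k1 hsp (by omega) k3 hMq (k4 M hMr) hk (fun i => hbd _ (hαβ i).1)
      (fun i => hbd _ (hαβ i).2) (fun i j hij => sub_ne_zero.mpr (hind i j hij))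
      (fun i => w i ^ N') ⟨i1, pow_ne_zero N' hw⟩ (by
        intro i j r
        have h1 := hwR i j r
        rw [mul_comm s N', pow_mul, pow_mul, pow_mul] at h1
        exact h1)
  refine ⟨⟨δ, hδ0, S, fun s hs => (hS s hs).1, hdens, main⟩, ?_, ?_⟩
  · refine almost_all_of S (fun s hs => (hS s hs).1) hdens (fun Z N => ManyObstructions N Z)
      δ hδ0 0 ?_ ?_
    · intro s hs _ N hN h0 k hk α β hαβ hind htriv
      obtain ⟨G, hG1, hG2, hG3⟩ := main s hs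
      exact ⟨G, hG1, fun q hq => ⟨(hG2 q hq).1, hG3 k hk α β hαβ hind htriv N h0 hN q hq⟩⟩
    · intro z z' N hz h h0 k hk α β hαβ hind htriv
      obtain ⟨G, hG1, hG2⟩ := h h0 k hk α β (fun i => ⟨(hαβ i).1.trans hz, (hαβ i).2.trans hz⟩)
        hind htriv
      exact ⟨G, hz.trans hG1, hG2⟩
  · rintro k N α β hN ⟨a, b, h1, h2⟩
    refine ⟨fun i => α i * a + β i * b, h2, a, b, fun i => ?_⟩
    show (α i * a + β i * b) ^ N = α i * a + β i * b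
    rcases h1 i with h | h | h
    · rw [h, zero_pow hN.pos.ne']
    · rw [h, one_pow]
    · rw [h, hN.neg_one_pow]

end Pool.Agent.Results.MP_d37f77_nt.PowerCoversOfLines
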