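import Pool.Agent.H438.CT.Q
import Pool.Graph.R_seed8.R419.CF.Fin
import Pool.Graph.R_seed8.R419.CF.Low

/-!
# Finite descent on products of the cubic twists `y² + D y = x³` over `ℚ`

Let `E_D : y² + D y = x³` (a curve isomorphic over `ℚ` to a twist of `x³ + y³ = 1`, with a rational
point `(0, 0)` of order three). We consider the cube-free natural numbers `D`, prime to three and not
`±1` modulo nine, with exactly one prime factor that is `2` modulo three (`Class`). There are at least
`c X / √(log X)` such numbers up to `X`. For the proportion `∏ (1 - 3 ^ (-i)) = 0.5601…` of them the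
number `D` does not split (`NoSplit`, a condition on the cubic residues between the factors of `D`,
decidable by a finite search); then `E_D(ℚ)` is finite and `Ш(E_D / ℚ)[3^∞] = 0`, by the library.

Let `D_1, …, D_n` be such numbers, not necessarily different, and `X` any closed subset of
`E_{D_1} × … × E_{D_n}` over `ℚ`, for instance a curve. We show that the Hasse principle for `X` is
explained by the descent along the `3 ^ k`-coverings of the product:

* if all the `D_i` are `±4` modulo nine and `X(ℚ)` is empty, then there is a `k` such that no adelic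
  point of `X` lifts to a `3 ^ k`-covering, so that the Selmer set of this level is empty;
* the same holds without the condition modulo nine if no point of `X` over the completion at three is
  equal to one of the `3 ^ n` points `y` with components `O`, `(0, 0)`, `(0, -D_i)` up to points of
  order two in the components with `D_i` equal to `±2` modulo nine.

So for all smooth projective curves `C` contained in such products, `D_i` equal to `±4` modulo nine, the
answer to Q1 is positive, and the level `n` of the coverings is a power of three. The `3 ^ k`-coverings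
of the product induce coverings of `C` which are dominated by `3 ^ k`-coverings in the sense of the
problem (pull-backs of coverings of the Jacobian), so that also the Selmer set of `C` in the sense
of the problem is empty. Nothing is assumed about the other primary parts of the Tate-Shafarevich
groups of the `E_D`.

The completions are those of `ℚ` at its finite places; all the definitions are given for a number
field `K` and used for `K = ℚ`.
-/

set_option autoImplicit false

open IsDedekindDomain NumberField WeierstrassCurve MvPolynomial Pool.Agent.TH954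

open scoped Classical

namespace Pool.Agent.Results.MP_d37f77_nt.ProductsOfCubicTwists

/-- `D` is cube-free, prime to three, not `±1` modulo nine, and has exactly one prime factor
congruent to `2` modulo three. -/
def Class (D : ℕ) : Prop :=
  D ≠ 0 ∧ (∀ p : ℕ, p.Prime → ¬ p ^ 3 ∣ D) ∧ ¬ 3 ∣ D ∧ D % 9 ≠ 1 ∧ D % 9 ≠ 8 ∧
    ∃ q : ℕ, q.Prime ∧ q % 3 = 2 ∧ q ∣ D ∧ ∀ p : ℕ, p.Prime → p ∣ D → p ≠ q → p % 3 = 1

/-- `D` is not a product `d₀ d₁ d₂` of coprime factors, at least two of them different from `1`,
such that `d₁ d₂²`, `d₂ d₀²`, `d₀ d₁²` are cubes modulo the primes dividing `d₀`, `d₁`, `d₂`. -/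
def NoSplit (D : ℕ) : Prop :=
  ∀ d : ZMod 3 → ℕ, ∏ c, d c = D → (∀ c c', c ≠ c' → Nat.Coprime (d c) (d c')) →
    (∀ (c : ZMod 3) (p : ℕ), p.Prime → p ∣ d c →
      ∃ x : ℤ, (p : ℤ) ∣ (d (c + 1) : ℤ) * (d (c + 2) : ℤ) ^ 2 - x ^ 3) →
    ∃ c, ∀ c', c' ≠ c → d c' = 1

section definitions

variable (K : Type) [Field K] [NumberField K]

/-- the curve `E_D : y² + D y = x³` over `K` -/
def curve (D : ℕ) : WeierstrassCurve K := ⟨0, 0, (D : K), 0, 0⟩

variable {n : ℕ} (D : Fin n → ℕ)

/-- The points of the product of the curves `E_{D i}` over the extension `L` of `K`. -/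
def Pts (L : Type) [Field L] [Algebra K L] : Type :=
  (i : Fin n) → ((curve K (D i)).baseChange L).toAffine.Point

/-- The point `P` is in the closed subset defined by the equations in `S`. -/
def OnSet (S : Set (MvPolynomial (Fin n × Fin 3) K)) {L : Type} [Field L] [Algebra K L]
    (P : Pts K D L) : Prop :=
  OnX S (fun i => crd (P i))

/-- The closed subset defined by `S` has a `K`-rational point. -/
def HasPoint (S : Set (MvPolynomial (Fin n × Fin 3) K)) : Prop :=
  ∃ y : Pts K D K, OnSet K D S y

/-- The finite adelic points. -/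
def Adelic : Type := (v : HeightOneSpectrum (𝓞 K)) → Pts K D (v.adicCompletion K)

/-- The point `P` over the extension `L` of `K` lifts to the `N`-covering given by the cocycles
`ξ i`: there are points `Q i` over the algebraic closure of `L` with `N • Q i = P i` on which the
Galois group of `L` acts by translation by the `ξ i`. -/
def LiftsOver (N : ℕ)
    (ξ : (i : Fin n) → (AlgebraicClosure K ≃ₐ[K] AlgebraicClosure K) → AlgPt (curve K (D i)) K)
    (L : Type) [Field L] [Algebra K L] (P : Pts K D L) : Prop :=
  ∃ (ι : AlgebraicClosure K →ₐ[K] AlgebraicClosure L) (Q : (i : Fin n) → AlgPt (curve K (D i)) L),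
    (∀ i, N • Q i = incl (curve K (D i)) L (P i)) ∧
      ∀ i σ τ, Compat ι σ τ → pm (curve K (D i)) ι (ξ i τ) = act (curve K (D i)) σ (Q i) - Q i

/-- All the components of the adelic point `P` lift to one and the same `N`-covering of the product of
the curves, given by cocycles `ξ i` with values in the points of order dividing `N`. -/
def Lifts (N : ℕ) (P : Adelic K D) : Prop :=
  ∃ ξ : (i : Fin n) → (AlgebraicClosure K ≃ₐ[K] AlgebraicClosure K) → AlgPt (curve K (D i)) K,
    (∀ i, IsCocycle (curve K (D i)) (ξ i)) ∧ (∀ i σ, N • ξ i σ = 0) ∧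
    ∀ v, LiftsOver K D N ξ (v.adicCompletion K) (P v)

/-- No adelic point of the closed subset defined by `S` lifts to an `N`-covering: no `N`-covering has
points everywhere locally over the closed subset. -/
def SelmerSetEmpty (S : Set (MvPolynomial (Fin n × Fin 3) K)) (N : ℕ) : Prop :=
  ∀ P : Adelic K D, (∀ v, OnSet K D S (P v)) → ¬ Lifts K D N P

/-- The point `P` over `L` is equal to the point `y`, whose components are among `O`, `(0, 0)`,
`(0, -D i)`, up to points of order two in the components where `D i` is `±2` modulo nine. -/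
def NearTorsion {L : Type} [Field L] [Algebra K L] (P : Pts K D L) : Prop :=
  ∃ y : Pts K D K,
    (∀ i, crd (y i) = ![0, 1, 0] ∨ crd (y i) = ![0, 0, 1] ∨ crd (y i) = ![0, -(D i : K), 1]) ∧
    ∀ i, 2 • P i = 2 • Affine.Point.map (W' := curve K (D i)) (Algebra.ofId K L) (y i) ∧
      (D i % 9 ≠ 2 → D i % 9 ≠ 7 →
        P i = Affine.Point.map (W' := curve K (D i)) (Algebra.ofId K L) (y i))

/-- The statement on the descent, over the number field `K`. -/
def Descent : Prop :=
  ∀ S : Set (MvPolynomial (Fin n × Fin 3) K), (∀ f ∈ S, ∃ d, MultiHom d f) →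
    ((∀ v : HeightOneSpectrum (𝓞 K), ((3 : ℕ) : 𝓞 K) ∈ v.asIdeal →
        ∀ P : Pts K D (v.adicCompletion K), OnSet K D S P → ¬ NearTorsion K D P) →
      ∃ k : ℕ, SelmerSetEmpty K D S (3 ^ k)) ∧
    ((∀ i, D i % 9 = 4 ∨ D i % 9 = 5) → ¬ HasPoint K D S → ∃ k : ℕ, SelmerSetEmpty K D S (3 ^ k))

end definitions

theorem descent (K : Type) [Field K] [NumberField K] (j : 𝓞 K ≃+* ℤ) {n : ℕ} (D : Fin n → ℕ)
    (hg : ∀ i, Pool.Agent.H438.CT.Q.GoodK K (D i)) : Descent K D := by
  intro S hS
  obtain ⟨v, hv⟩ := Pool.Agent.H438.CT.Q.ex_v j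
  have key : (∀ v : HeightOneSpectrum (𝓞 K), ((3 : ℕ) : 𝓞 K) ∈ v.asIdeal →
        ∀ P : Pts K D (v.adicCompletion K), OnSet K D S P → ¬ NearTorsion K D P) →
      ∃ k : ℕ, SelmerSetEmpty K D S (3 ^ k) := by
    intro hX
    obtain ⟨k, hk⟩ := Pool.Agent.H438.CT.Q.fin_level j hg S hS v hv (fun P hP => by
      rintro ⟨y, hy3, hy⟩
      exact hX v hv P hP ⟨y, fun i => (hg i).tor_crd (hy3 i), hy⟩)
    exact ⟨k, fun P hP => hk P (hP v)⟩
  refine ⟨key, fun h9 hno => key fun v hv P hP hN => hno ?_⟩
  obtain ⟨y, -, hy⟩ := hN
  refine ⟨y, ?_⟩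
  have h5 : ∀ i, P i = Affine.Point.map (W' := curve K (D i))
      (Algebra.ofId K (v.adicCompletion K)) (y i) := fun i =>
    (hy i).2 (by rcases h9 i with h | h <;> omega) (by rcases h9 i with h | h <;> omega)
  intro f hf
  have h6 := hP f hf
  have e1 : (fun q : Fin n × Fin 3 => crd (P q.1) q.2) =
      fun q => algebraMap K (v.adicCompletion K) (crd (y q.1) q.2) := by
    funext q
    rw [h5 q.1]
    exact Pool.Agent.R419.ST.crd_pm (E := curve K (D q.1)) (Algebra.ofId K (v.adicCompletion K))
      (y q.1) q.2
  rw [e1] at h6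
  have h7 := aeval_algebraMap_apply (v.adicCompletion K)
    (fun q : Fin n × Fin 3 => crd (y q.1) q.2) f
  have h8 := h7.symm.trans h6
  exact (map_eq_zero _).1 h8

theorem class_iff (D : ℕ) : Class D ↔ Pool.Agent.Y703.CT.Cls D := by
  unfold Class Pool.Agent.Y703.CT.Cls Pool.Agent.Y703.CT.Base
  constructor
  · rintro ⟨h1, h2, h3, h4, h5, h6⟩
    exact ⟨⟨h1, h3, h2⟩, h4, h5, h6⟩
  · rintro ⟨⟨h1, h3, h2⟩, h4, h5, h6⟩
    exact ⟨h1, h2, h3, h4, h5, h6⟩

/-- **Theorem.** There are at least `c X / √(log X)` numbers up to `X` in the class; a proportion of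
more than `0.56` of them does not split; and if the `D i` are in the class and do not split, then
the descent statement holds for all the closed subsets of the product of the curves `E_{D i}`. -/
theorem result :
    (∃ c : ℝ, 0 < c ∧ ∃ X₀ : ℕ, ∀ X : ℕ, X₀ ≤ X →
      c * X / Real.sqrt (Real.log X) ≤ (((Finset.Icc 1 X).filter fun N => Class N).card : ℝ)) ∧
    (∃ c : ℝ, 0.56 < c ∧ Filter.Tendsto (fun X : ℕ =>
        (((Finset.Icc 1 X).filter fun N => Class N ∧ NoSplit N).card : ℝ) /
        (((Finset.Icc 1 X).filter fun N => Class N).card : ℝ)) Filter.atTop (nhds c)) ∧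
    ∀ (n : ℕ) (D : Fin n → ℕ), (∀ i, Class (D i) ∧ NoSplit (D i)) → Descent ℚ D := by
  have e2 : ∀ X : ℕ, (Finset.Icc 1 X).filter (fun D => Class D) =
      (Finset.Icc 1 X).filter fun D => Pool.Agent.Y703.CT.Cls D := by
    intro X
    refine Finset.filter_congr fun D _ => ?_
    rw [class_iff]
  have e3 : ∀ X : ℕ, (Finset.Icc 1 X).filter (fun D => Class D ∧ NoSplit D) =
      (Finset.Icc 1 X).filter fun D => Pool.Agent.Y703.CT.Cls D ∧
        Pool.Agent.Y703.CT.NoSplit D := by
    intro X
    refine Finset.filter_congr fun D _ => ?_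
    rw [class_iff]
    rfl
  refine ⟨?_, ⟨_, Pool.Agent.Y461.CX.t_C3.2.2.2, ?_⟩, fun n D hD => ?_⟩
  · simp only [e2]
    exact Pool.Agent.R419.CF.low
  · have h := Pool.Agent.R419.CF.t_FIN
    unfold Pool.Agent.Y703.CX.c3 at h
    simp only [e2, e3]
    exact h
  · exact descent ℚ Rat.ringOfIntegersEquiv D fun i =>
      Pool.Agent.H438.CT.Q.goodQ ((class_iff _).1 (hD i).1) (hD i).2

end Pool.Agent.Results.MP_d37f77_nt.ProductsOfCubicTwists
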